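import Pool.Agent.H862R3.Monster.Targets

set_option autoImplicit false

open Pool.Agent.H862R3.Monster

/-- Super-rigidity of the random monster groups with respect to the outer automorphism group of
every finitely generated right-angled Artin group. -/
theorem Pool.Agent.Results.MP_af453c_al.OutRaag.result :
    ∀ (d k j : ℕ) (_ : 3 ≤ d) (hk : 2 ≤ k) (_ : 1 ≤ j)
      (V : ℕ → Type) [∀ n, Finite (V n)] (Ω : ∀ n, SimpleGraph (V n)),
      Standing Ω → (∀ n v, ((Ω n).neighborSet v).ncard = d) →
      ∀ (W : Type) [Finite W] (Λ : SimpleGraph W),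
        SuperRigidFamily (Tpow k j hk) Ω (Outer (RAAG Λ)) := by
  intro d k j _ hk hj V _ Ω hst hdeg W _ Λ
  have := countable_outer (RAAG Λ)
  exact family_of_superRigid _ (superRigid_of_hereditary _
    (hereditary hk (infinite_not_acyclic hst (fun n v => (hdeg n v).le)) (good_Tpow hk hj)
      (quot_mem_Ev_Tpow hk) _))
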